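import Pool.Agent.H569_LCS.Final
set_option autoImplicit false
set_option linter.unusedSimpArgs false

namespace Pool.Agent.Results.MP_21e463_al.HilbertRational

open Pool.Agent.H569_LCS

/-- Full answer to Q1 (the rationality statement is true).  For the free complex superalgebra on `m` even
generators (`Sum.inl i`) and `n` odd generators (`Sum.inr j`), `G d` is the span of the words of multidegree `d`,
`L 1 = A` and `L (k+1)` is the span of the supercommutators `w b - (-1)^(|w||b|) b w` of words `w` with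
multihomogeneous elements `b` of `L k`.  For `k ≥ 3` let `h` be the multigraded Hilbert series of
`B_k = L k / L (k+1)`, the power series whose coefficient at `d` is `dim (L k ∩ G d) - dim (L (k+1) ∩ G d)`.
Then the power series product `h * ∏ (1 - X s)` over all generators `s` is a polynomial.
(The hypotheses are word for word those of the frozen statement S00921; here the product is the product of
`MvPowerSeries`.) -/
theorem result :
    ∀ (m n : ℕ) (L : ℕ → Submodule ℂ (FreeAlgebra ℂ (Fin m ⊕ Fin n)))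
      (G : ((Fin m ⊕ Fin n) →₀ ℕ) → Submodule ℂ (FreeAlgebra ℂ (Fin m ⊕ Fin n))),
      (∀ d : (Fin m ⊕ Fin n) →₀ ℕ, G d = Submodule.span ℂ
        ((fun w : FreeMonoid (Fin m ⊕ Fin n) =>
            FreeMonoid.lift (fun x => FreeAlgebra.ι ℂ x) w) ''
          {w : FreeMonoid (Fin m ⊕ Fin n) |
            Multiset.toFinsupp (↑(FreeMonoid.toList w) : Multiset (Fin m ⊕ Fin n)) = d})) →
      L 1 = ⊤ →
      (∀ k : ℕ, 1 ≤ k → L (k + 1) = Submodule.span ℂ
        {x : FreeAlgebra ℂ (Fin m ⊕ Fin n) |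
          ∃ (w : FreeMonoid (Fin m ⊕ Fin n)) (d : (Fin m ⊕ Fin n) →₀ ℕ)
            (b : FreeAlgebra ℂ (Fin m ⊕ Fin n)),
            b ∈ L k ⊓ G d ∧
            x = FreeMonoid.lift (fun x => FreeAlgebra.ι ℂ x) w * b -
              ((-1 : ℂ) ^ ((∑ j : Fin n,
                  (Multiset.toFinsupp (↑(FreeMonoid.toList w) : Multiset (Fin m ⊕ Fin n)))
                    (Sum.inr j)) * ∑ j : Fin n, d (Sum.inr j))) •
                (b * FreeMonoid.lift (fun x => FreeAlgebra.ι ℂ x) w)}) →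
      ∀ k : ℕ, 3 ≤ k →
        ∃ (h : MvPowerSeries (Fin m ⊕ Fin n) ℤ) (p : MvPolynomial (Fin m ⊕ Fin n) ℤ),
          (∀ d : (Fin m ⊕ Fin n) →₀ ℕ, MvPowerSeries.coeff d h =
            (Module.finrank ℂ (L k ⊓ G d : Submodule ℂ (FreeAlgebra ℂ (Fin m ⊕ Fin n))) : ℤ) -
              (Module.finrank ℂ (L (k + 1) ⊓ G d : Submodule ℂ (FreeAlgebra ℂ (Fin m ⊕ Fin n))) : ℤ)) ∧
          h * ∏ s : Fin m ⊕ Fin n, (1 - MvPowerSeries.X s) = (p : MvPowerSeries (Fin m ⊕ Fin n) ℤ) := by
  intro m n L G hG hL1 hL k hk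
  -- the parity function
  let par : Fin m ⊕ Fin n → Bool := Sum.isRight
  have hGG : ∀ d, G d = Pool.Agent.H569_LCS.G d := fun d => hG d
  have hnp : ∀ d : (Fin m ⊕ Fin n) →₀ ℕ, np par d = ∑ j : Fin n, d (Sum.inr j) := by
    intro d
    rw [np, Fintype.sum_sum_type]
    simp [par]
  have hLL : ∀ j, L (j + 1) = LL (sig par) j := by
    intro j
    induction j with
    | zero => exact hL1
    | succ j ih =>
      rw [hL (j+1) (by omega), LL_succ_eq]
      congr 1
      ext x
      constructor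
      · rintro ⟨w, d, b, hb, hx⟩
        refine ⟨w, d, b, ?_, ?_⟩
        · rw [← ih, ← hGG]; exact hb
        · rw [hnp, hnp]; exact hx
      · rintro ⟨w, d, b, hb, hx⟩
        refine ⟨w, d, b, ?_, ?_⟩
        · rw [ih, hGG]; exact hb
        · rw [hnp, hnp] at hx; exact hx
  obtain ⟨j, rfl⟩ : ∃ j, k = j + 1 := ⟨k - 1, by omega⟩
  let h : MvPowerSeries (Fin m ⊕ Fin n) ℤ := fun d => ((fN par j d : ℕ) : ℤ)
  have hc : ∀ d : (Fin m ⊕ Fin n) →₀ ℕ, MvPowerSeries.coeff d h = ((fN par j d : ℕ) : ℤ) := fun d => rfl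
  obtain ⟨p, hp⟩ := rational_free par j (by omega) h hc
  refine ⟨h, p, fun d => ?_, hp⟩
  rw [hc, hLL, hLL, hGG, fN, Nat.cast_sub (finrank_LL_le par j d)]

end Pool.Agent.Results.MP_21e463_al.HilbertRational
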